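import Pool.Agent.Helper20.RG.St1

set_option autoImplicit false

open MeasureTheory Set Filter Topology
open scoped ENNReal RealInnerProductSpace

namespace Pool.Agent.Helper13.RG

open Pool.Agent.Helper20.RG
open Pool.Agent.Helper68.LM (Pl)

/-- exponential times sinc -/
noncomputable def Wd (A x : ℝ) : ℂ :=
  Complex.exp (((-2 * Real.pi * A : ℝ) : ℂ) * Complex.I) * ((Real.sinc x : ℝ) : ℂ)

lemma norm_Wd (A x : ℝ) : ‖Wd A x‖ = |Real.sinc x| := by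
  unfold Wd
  rw [norm_mul, Complex.norm_exp_ofReal_mul_I, one_mul, Complex.norm_real, Real.norm_eq_abs]

lemma exp_diff (a b : ℝ) :
    ‖Complex.exp ((a : ℂ) * Complex.I) - Complex.exp ((b : ℂ) * Complex.I)‖ ≤ |a - b| := by
  have h : Complex.exp ((a : ℂ) * Complex.I) - Complex.exp ((b : ℂ) * Complex.I) =
      Complex.exp ((b : ℂ) * Complex.I) * (Complex.exp (Complex.I * ((a - b : ℝ) : ℂ)) - 1) := by
    rw [mul_sub, ← Complex.exp_add]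
    congr 2
    · push_cast; ring
    · ring
  rw [h, norm_mul, Complex.norm_exp_ofReal_mul_I, one_mul]
  have := Real.norm_exp_I_mul_ofReal_sub_one_le (x := a - b)
  rwa [Real.norm_eq_abs] at this

lemma Wd_diff (hSINC : StSINC) (A B x y : ℝ) :
    ‖Wd A x - Wd B y‖ ≤ 2 * Real.pi * |A - B| + |x - y| := by
  obtain ⟨h1, h2, -⟩ := hSINC
  have h : Wd A x - Wd B y =
      (Complex.exp (((-2 * Real.pi * A : ℝ) : ℂ) * Complex.I) -
        Complex.exp (((-2 * Real.pi * B : ℝ) : ℂ) * Complex.I)) * ((Real.sinc x : ℝ) : ℂ) +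
      Complex.exp (((-2 * Real.pi * B : ℝ) : ℂ) * Complex.I) *
        ((Real.sinc x - Real.sinc y : ℝ) : ℂ) := by
    unfold Wd
    push_cast
    ring
  rw [h]
  refine (norm_add_le _ _).trans ?_
  rw [norm_mul, norm_mul, Complex.norm_exp_ofReal_mul_I, one_mul, Complex.norm_real,
    Complex.norm_real, Real.norm_eq_abs, Real.norm_eq_abs]
  have h3 := exp_diff (-2 * Real.pi * A) (-2 * Real.pi * B)
  have h4 : |-2 * Real.pi * A - -2 * Real.pi * B| = 2 * Real.pi * |A - B| := by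
    rw [show -2 * Real.pi * A - -2 * Real.pi * B = -(2 * Real.pi * (A - B)) by ring, abs_neg,
      abs_mul, abs_of_pos (by positivity : (0 : ℝ) < 2 * Real.pi)]
  rw [h4] at h3
  have h5 := h2 x y
  have h6 := (h1 x).1
  have h7 : ‖Complex.exp (((-2 * Real.pi * A : ℝ) : ℂ) * Complex.I) -
        Complex.exp (((-2 * Real.pi * B : ℝ) : ℂ) * Complex.I)‖ * |Real.sinc x| ≤
        2 * Real.pi * |A - B| * 1 :=
    mul_le_mul h3 h6 (abs_nonneg _) (by positivity)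
  linarith

lemma sinc_two (y : ℝ) : Real.sinc (2 * y) = Real.sinc y * Real.cos y := by
  by_cases hy : y = 0
  · subst hy; simp
  · rw [Real.sinc_of_ne_zero (by simpa using hy), Real.sinc_of_ne_zero hy, Real.sin_two_mul]
    field_simp

lemma Wd_two (A y : ℝ) :
    Wd A (2 * y) = (Wd (A - y / (2 * Real.pi)) y + Wd (A + y / (2 * Real.pi)) y) / 2 := by
  unfold Wd
  rw [sinc_two]
  have hp : (Real.pi : ℝ) ≠ 0 := Real.pi_ne_zero
  have h1 : ((-2 * Real.pi * (A - y / (2 * Real.pi)) : ℝ) : ℂ) * Complex.I =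
      ((-2 * Real.pi * A : ℝ) : ℂ) * Complex.I + (y : ℂ) * Complex.I := by
    rw [show -2 * Real.pi * (A - y / (2 * Real.pi)) = -2 * Real.pi * A + y by field_simp; ring]
    push_cast; ring
  have h2 : ((-2 * Real.pi * (A + y / (2 * Real.pi)) : ℝ) : ℂ) * Complex.I =
      ((-2 * Real.pi * A : ℝ) : ℂ) * Complex.I + -(y : ℂ) * Complex.I := by
    rw [show -2 * Real.pi * (A + y / (2 * Real.pi)) = -2 * Real.pi * A - y by field_simp; ring]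
    push_cast; ring
  rw [h1, h2, Complex.exp_add, Complex.exp_add]
  have h3 : ((Real.sinc y * Real.cos y : ℝ) : ℂ) = ((Real.sinc y : ℝ) : ℂ) *
      ((Complex.exp ((y : ℂ) * Complex.I) + Complex.exp (-(y : ℂ) * Complex.I)) / 2) := by
    rw [Complex.ofReal_mul, Complex.ofReal_cos]
    rfl
  rw [h3]
  ring

/-- the box factor -/
noncomputable def kap (m : ℕ) (ξ : Pl) : ℝ :=
  Real.sinc (2 * Real.pi * (2 : ℝ) ^ (-(m : ℤ)) * ξ 0) *
    Real.sinc (2 * Real.pi * (2 : ℝ) ^ (-(m : ℤ)) * ξ 1)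

lemma Yh_eq (s : ℝ) (c : Pl) (m : ℕ) (ℓ : ℝ) (ξ : Pl) :
    Yh s c m ℓ ξ = Wd ⟪c, ξ⟫ (Real.pi * ℓ * ⟪E s, ξ⟫) * ((kap m ξ : ℝ) : ℂ) := by
  unfold Yh Wd kap
  push_cast
  ring

lemma kap_one (hSINC : StSINC) (m : ℕ) (ξ : Pl) : |kap m ξ| ≤ 1 := by
  obtain ⟨h1, -, -⟩ := hSINC
  unfold kap
  rw [abs_mul]
  exact mul_le_one₀ (h1 _).1 (abs_nonneg _) (h1 _).1

lemma kap_r (hPT : StPT) (hSINC : StSINC) (m : ℕ) (ξ : Pl) :
    |kap m ξ| * (‖ξ‖ * (2 : ℝ) ^ (-(m : ℤ))) ≤ 1 / 2 := by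
  obtain ⟨h1, -, -⟩ := hSINC
  obtain ⟨-, -, h2, -⟩ := hPT
  obtain ⟨-, -, h3, -⟩ := h2 ξ
  set h : ℝ := (2 : ℝ) ^ (-(m : ℤ)) with hh
  have hpos : 0 < h := by positivity
  have hpi := Real.pi_gt_three
  have key : ∀ x y : ℝ, |Real.sinc (2 * Real.pi * h * x) * Real.sinc (2 * Real.pi * h * y)| *
      (2 * Real.pi * h * |x|) ≤ 1 := by
    intro x y
    have a1 := (h1 (2 * Real.pi * h * x)).2.1
    have a2 := (h1 (2 * Real.pi * h * y)).1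
    rw [abs_mul, abs_mul (2 * Real.pi * h), abs_of_pos (by positivity : 0 < 2 * Real.pi * h)] at a1
    rw [abs_mul]
    calc |Real.sinc (2 * Real.pi * h * x)| * |Real.sinc (2 * Real.pi * h * y)| *
          (2 * Real.pi * h * |x|)
        = (2 * Real.pi * h * |x| * |Real.sinc (2 * Real.pi * h * x)|) *
            |Real.sinc (2 * Real.pi * h * y)| := by ring
      _ ≤ 1 * 1 := mul_le_mul a1 a2 (abs_nonneg _) zero_le_one
      _ = 1 := one_mul 1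
  have k1 := key (ξ 0) (ξ 1)
  have k2 := key (ξ 1) (ξ 0)
  rw [mul_comm (Real.sinc (2 * Real.pi * h * ξ 1))] at k2
  have hk : kap m ξ = Real.sinc (2 * Real.pi * h * ξ 0) * Real.sinc (2 * Real.pi * h * ξ 1) := rfl
  rw [← hk] at k1 k2
  have hκ := abs_nonneg (kap m ξ)
  have h4 : |kap m ξ| * (2 * Real.pi * h * ‖ξ‖) ≤ 2 := by
    calc |kap m ξ| * (2 * Real.pi * h * ‖ξ‖) ≤ |kap m ξ| * (2 * Real.pi * h * (|ξ 0| + |ξ 1|)) := by
          gcongr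
      _ = |kap m ξ| * (2 * Real.pi * h * |ξ 0|) + |kap m ξ| * (2 * Real.pi * h * |ξ 1|) := by ring
      _ ≤ 2 := by linarith
  have h5 : 0 ≤ |kap m ξ| * (‖ξ‖ * h) := by positivity
  have h6 : 4 * (|kap m ξ| * (‖ξ‖ * h)) ≤ 2 * Real.pi * (|kap m ξ| * (‖ξ‖ * h)) :=
    mul_le_mul_of_nonneg_right (by linarith) h5
  have h7 : 2 * Real.pi * (|kap m ξ| * (‖ξ‖ * h)) = |kap m ξ| * (2 * Real.pi * h * ‖ξ‖) := by ring
  linarith

/-- the difference in the second moment between the parent and the children -/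
lemma main (hPT : StPT) (hSINC : StSINC) (P h : ℝ) (m : ℕ) (hP : 0 < P)
    (hh : h = (2 : ℝ) ^ (-(m : ℤ))) (s s₁ s₂ : ℝ) (c c₁ c₂ : Pl)
    (a1 : |s₁ - s| ≤ h * P) (a2 : |s₂ - s| ≤ h * P)
    (b1 : c₁ 0 = c 0 - 1 / (4 * P)) (b2 : c₂ 0 = c 0 + 1 / (4 * P))
    (d1 : |c₁ 1 - (c 1 - s / (4 * P))| ≤ h) (d2 : |c₂ 1 - (c 1 + s / (4 * P))| ≤ h) (ξ : Pl) :
    ‖(Yh s₁ c₁ m (1 / (2 * P)) ξ + Yh s₂ c₂ m (1 / (2 * P)) ξ) / 2 - Yh s c m (1 / P) ξ‖ ≤ 2 ∧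
    ‖(Yh s₁ c₁ m (1 / (2 * P)) ξ + Yh s₂ c₂ m (1 / (2 * P)) ξ) / 2 - Yh s c m (1 / P) ξ‖ ≤
      8 * (‖ξ‖ * h) ∧
    ‖(Yh s₁ c₁ m (1 / (2 * P)) ξ + Yh s₂ c₂ m (1 / (2 * P)) ξ) / 2 - Yh s c m (1 / P) ξ‖ *
      (‖ξ‖ * h) ≤ 1 ∧
    ‖(Yh s₁ c₁ m (1 / (2 * P)) ξ + Yh s₂ c₂ m (1 / (2 * P)) ξ) / 2 - Yh s c m (1 / P) ξ‖ *
      (1 / P * |⟪E s, ξ⟫|) ≤ 8 := by
  have hS := hSINC
  obtain ⟨S1, -, -⟩ := hSINC
  have hhp : 0 < h := by rw [hh]; positivity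
  have hκ1 := kap_one hS m ξ
  have hκr := kap_r hPT hS m ξ
  rw [← hh] at hκr
  obtain ⟨p1, -, p3, p4, -⟩ := hPT
  obtain ⟨-, q2, -, -⟩ := p3 ξ
  have hE : ∀ t : ℝ, ⟪E t, ξ⟫ = ξ 0 + t * ξ 1 := by
    intro t
    rw [p4]
    unfold E
    rw [(p1 1 t).1, (p1 1 t).2, one_mul]
  set b : ℝ := ⟪E s, ξ⟫ with hb
  set bb₁ : ℝ := ⟪E s₁, ξ⟫ with hb1
  set bb₂ : ℝ := ⟪E s₂, ξ⟫ with hb2
  have e1 : |bb₁ - b| ≤ h * P * ‖ξ‖ := by
    rw [hb1, hb, hE, hE, show ξ 0 + s₁ * ξ 1 - (ξ 0 + s * ξ 1) = (s₁ - s) * ξ 1 by ring, abs_mul]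
    exact mul_le_mul a1 q2 (abs_nonneg _) (by positivity)
  have e2 : |bb₂ - b| ≤ h * P * ‖ξ‖ := by
    rw [hb2, hb, hE, hE, show ξ 0 + s₂ * ξ 1 - (ξ 0 + s * ξ 1) = (s₂ - s) * ξ 1 by ring, abs_mul]
    exact mul_le_mul a2 q2 (abs_nonneg _) (by positivity)
  have hrew : (Yh s₁ c₁ m (1 / (2 * P)) ξ + Yh s₂ c₂ m (1 / (2 * P)) ξ) / 2 - Yh s c m (1 / P) ξ =
      ((Wd ⟪c₁, ξ⟫ (Real.pi * (1 / (2 * P)) * bb₁) + Wd ⟪c₂, ξ⟫ (Real.pi * (1 / (2 * P)) * bb₂)) / 2 -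
        Wd ⟪c, ξ⟫ (Real.pi * (1 / P) * b)) * ((kap m ξ : ℝ) : ℂ) := by
    rw [Yh_eq, Yh_eq, Yh_eq]
    ring
  rw [hrew, norm_mul, Complex.norm_real, Real.norm_eq_abs]
  set W₁ : ℂ := Wd ⟪c₁, ξ⟫ (Real.pi * (1 / (2 * P)) * bb₁) with hW1
  set W₂ : ℂ := Wd ⟪c₂, ξ⟫ (Real.pi * (1 / (2 * P)) * bb₂) with hW2
  set W₀ : ℂ := Wd ⟪c, ξ⟫ (Real.pi * (1 / P) * b) with hW0
  have n1 : ‖W₁‖ ≤ 1 := by rw [hW1, norm_Wd]; exact (S1 _).1
  have n2 : ‖W₂‖ ≤ 1 := by rw [hW2, norm_Wd]; exact (S1 _).1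
  have n0 : ‖W₀‖ ≤ 1 := by rw [hW0, norm_Wd]; exact (S1 _).1
  have tri : ‖(W₁ + W₂) / 2 - W₀‖ ≤ (‖W₁‖ + ‖W₂‖) / 2 + ‖W₀‖ := by
    refine (norm_sub_le _ _).trans ?_
    rw [norm_div]
    have := norm_add_le W₁ W₂
    simp only [Complex.norm_ofNat]
    linarith
  have t2 : ‖(W₁ + W₂) / 2 - W₀‖ ≤ 2 := by linarith
  have hκ0 := abs_nonneg (kap m ξ)
  have hN0 := norm_nonneg ((W₁ + W₂) / 2 - W₀)
  have hr0 := norm_nonneg ξ
  have hpi := Real.pi_gt_three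
  have hpi2 := Real.pi_lt_d2
  have A : ‖(W₁ + W₂) / 2 - W₀‖ * |kap m ξ| ≤ 2 := by
    have := mul_le_mul t2 hκ1 hκ0 (by norm_num : (0 : ℝ) ≤ 2)
    linarith
  have Bd : ‖(W₁ + W₂) / 2 - W₀‖ ≤ 8 * (‖ξ‖ * h) := by
    have hw : W₀ = (Wd (⟪c, ξ⟫ - (Real.pi * (1 / (2 * P)) * b) / (2 * Real.pi))
        (Real.pi * (1 / (2 * P)) * b) +
        Wd (⟪c, ξ⟫ + (Real.pi * (1 / (2 * P)) * b) / (2 * Real.pi))
        (Real.pi * (1 / (2 * P)) * b)) / 2 := by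
      rw [← Wd_two, hW0]
      congr 1
      field_simp
    have hw' : (W₁ + W₂) / 2 - W₀ =
        ((W₁ - Wd (⟪c, ξ⟫ - (Real.pi * (1 / (2 * P)) * b) / (2 * Real.pi))
          (Real.pi * (1 / (2 * P)) * b)) +
        (W₂ - Wd (⟪c, ξ⟫ + (Real.pi * (1 / (2 * P)) * b) / (2 * Real.pi))
          (Real.pi * (1 / (2 * P)) * b))) / 2 := by
      rw [hw]; ring
    rw [hw', norm_div]
    have f1 := Wd_diff hS ⟪c₁, ξ⟫ (⟪c, ξ⟫ - (Real.pi * (1 / (2 * P)) * b) / (2 * Real.pi))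
      (Real.pi * (1 / (2 * P)) * bb₁) (Real.pi * (1 / (2 * P)) * b)
    have f2 := Wd_diff hS ⟪c₂, ξ⟫ (⟪c, ξ⟫ + (Real.pi * (1 / (2 * P)) * b) / (2 * Real.pi))
      (Real.pi * (1 / (2 * P)) * bb₂) (Real.pi * (1 / (2 * P)) * b)
    have g1 : |⟪c₁, ξ⟫ - (⟪c, ξ⟫ - (Real.pi * (1 / (2 * P)) * b) / (2 * Real.pi))| ≤ h * ‖ξ‖ := by
      have : ⟪c₁, ξ⟫ - (⟪c, ξ⟫ - (Real.pi * (1 / (2 * P)) * b) / (2 * Real.pi)) =
          (c₁ 1 - (c 1 - s / (4 * P))) * ξ 1 := by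
        rw [hb, hE, p4, p4, b1]
        field_simp
        ring
      rw [this, abs_mul]
      exact mul_le_mul d1 q2 (abs_nonneg _) hhp.le
    have g2 : |⟪c₂, ξ⟫ - (⟪c, ξ⟫ + (Real.pi * (1 / (2 * P)) * b) / (2 * Real.pi))| ≤ h * ‖ξ‖ := by
      have : ⟪c₂, ξ⟫ - (⟪c, ξ⟫ + (Real.pi * (1 / (2 * P)) * b) / (2 * Real.pi)) =
          (c₂ 1 - (c 1 + s / (4 * P))) * ξ 1 := by
        rw [hb, hE, p4, p4, b2]
        field_simp
        ring
      rw [this, abs_mul]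
      exact mul_le_mul d2 q2 (abs_nonneg _) hhp.le
    have k1 : ∀ t : ℝ, |t - b| ≤ h * P * ‖ξ‖ →
        |Real.pi * (1 / (2 * P)) * t - Real.pi * (1 / (2 * P)) * b| ≤ Real.pi / 2 * (h * ‖ξ‖) := by
      intro t ht
      rw [← mul_sub, abs_mul, abs_of_pos (by positivity : 0 < Real.pi * (1 / (2 * P)))]
      calc Real.pi * (1 / (2 * P)) * |t - b| ≤ Real.pi * (1 / (2 * P)) * (h * P * ‖ξ‖) := by gcongr
        _ = Real.pi / 2 * (h * ‖ξ‖) := by field_simp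
    have k2 := k1 _ e1
    have k3 := k1 _ e2
    have tt := norm_add_le (W₁ - Wd (⟪c, ξ⟫ - (Real.pi * (1 / (2 * P)) * b) / (2 * Real.pi))
          (Real.pi * (1 / (2 * P)) * b))
        (W₂ - Wd (⟪c, ξ⟫ + (Real.pi * (1 / (2 * P)) * b) / (2 * Real.pi))
          (Real.pi * (1 / (2 * P)) * b))
    have g1' : 2 * Real.pi * |⟪c₁, ξ⟫ - (⟪c, ξ⟫ - (Real.pi * (1 / (2 * P)) * b) / (2 * Real.pi))| ≤
        2 * Real.pi * (h * ‖ξ‖) := by gcongr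
    have g2' : 2 * Real.pi * |⟪c₂, ξ⟫ - (⟪c, ξ⟫ + (Real.pi * (1 / (2 * P)) * b) / (2 * Real.pi))| ≤
        2 * Real.pi * (h * ‖ξ‖) := by gcongr
    simp only [Complex.norm_ofNat]
    have hz : 0 ≤ h * ‖ξ‖ := by positivity
    have hfin : 2 * Real.pi * (h * ‖ξ‖) + Real.pi / 2 * (h * ‖ξ‖) ≤ 8 * (‖ξ‖ * h) := by
      calc 2 * Real.pi * (h * ‖ξ‖) + Real.pi / 2 * (h * ‖ξ‖) = 5 / 2 * Real.pi * (h * ‖ξ‖) := by ring
        _ ≤ 8 * (h * ‖ξ‖) := mul_le_mul_of_nonneg_right (by linarith) hz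
        _ = 8 * (‖ξ‖ * h) := by ring
    linarith
  have Cd : ‖(W₁ + W₂) / 2 - W₀‖ * |kap m ξ| * (‖ξ‖ * h) ≤ 1 := by
    calc ‖(W₁ + W₂) / 2 - W₀‖ * |kap m ξ| * (‖ξ‖ * h) =
        ‖(W₁ + W₂) / 2 - W₀‖ * (|kap m ξ| * (‖ξ‖ * h)) := by ring
      _ ≤ 2 * (1 / 2) := mul_le_mul t2 hκr (by positivity) (by norm_num)
      _ = 1 := by norm_num
  refine ⟨A, ?_, Cd, ?_⟩
  · calc ‖(W₁ + W₂) / 2 - W₀‖ * |kap m ξ| ≤ ‖(W₁ + W₂) / 2 - W₀‖ * 1 :=
          mul_le_mul_of_nonneg_left hκ1 (norm_nonneg _)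
      _ ≤ 8 * (‖ξ‖ * h) := by rw [mul_one]; exact Bd
  · by_cases hc : 8 * (h * ‖ξ‖) ≤ 1 / P * |b|
    · have hbpos : h * P * ‖ξ‖ ≤ |b| / 8 := by
        have := mul_le_mul_of_nonneg_left hc hP.le
        have h8 : P * (1 / P * |b|) = |b| := by field_simp
        rw [h8] at this
        linarith
      have v : ∀ t : ℝ, |t - b| ≤ h * P * ‖ξ‖ →
          |Real.sinc (Real.pi * (1 / (2 * P)) * t)| * (1 / P * |b|) ≤ 1 := by
        intro t ht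
        have w1 : 7 / 8 * |b| ≤ |t| := by
          have := abs_sub_abs_le_abs_sub b t
          rw [abs_sub_comm b t] at this
          linarith
        have w2 := (S1 (Real.pi * (1 / (2 * P)) * t)).2.1
        rw [abs_mul, abs_mul (Real.pi * (1 / (2 * P))),
          abs_of_pos (by positivity : 0 < Real.pi * (1 / (2 * P)))] at w2
        have w3 : 1 / P * |b| ≤ Real.pi * (1 / (2 * P)) * |t| := by
          have w4 : Real.pi * (1 / (2 * P)) * |t| = 1 / P * (Real.pi / 2 * |t|) := by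
            field_simp
          rw [w4]
          have w5 : |b| ≤ Real.pi / 2 * |t| := by
            have w6 : 3 / 2 * |t| ≤ Real.pi / 2 * |t| :=
              mul_le_mul_of_nonneg_right (by linarith) (abs_nonneg t)
            linarith [abs_nonneg b]
          exact mul_le_mul_of_nonneg_left w5 (by positivity)
        calc |Real.sinc (Real.pi * (1 / (2 * P)) * t)| * (1 / P * |b|) ≤
            |Real.sinc (Real.pi * (1 / (2 * P)) * t)| * (Real.pi * (1 / (2 * P)) * |t|) :=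
              mul_le_mul_of_nonneg_left w3 (abs_nonneg _)
          _ = Real.pi * (1 / (2 * P)) * |t| * |Real.sinc (Real.pi * (1 / (2 * P)) * t)| := by ring
          _ ≤ 1 := w2
      have v1 : ‖W₁‖ * (1 / P * |b|) ≤ 1 := by rw [hW1, norm_Wd]; exact v _ e1
      have v2 : ‖W₂‖ * (1 / P * |b|) ≤ 1 := by rw [hW2, norm_Wd]; exact v _ e2
      have v0 : ‖W₀‖ * (1 / P * |b|) ≤ 1 := by
        rw [hW0, norm_Wd]
        have w2 := (S1 (Real.pi * (1 / P) * b)).2.1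
        rw [abs_mul, abs_mul (Real.pi * (1 / P)),
          abs_of_pos (by positivity : 0 < Real.pi * (1 / P))] at w2
        have w3 : 1 / P * |b| ≤ Real.pi * (1 / P) * |b| := by
          have w4 : 0 ≤ 1 / P * |b| := by positivity
          calc 1 / P * |b| = 1 * (1 / P * |b|) := by ring
            _ ≤ Real.pi * (1 / P * |b|) := mul_le_mul_of_nonneg_right (by linarith) w4
            _ = Real.pi * (1 / P) * |b| := by ring
        calc |Real.sinc (Real.pi * (1 / P) * b)| * (1 / P * |b|) ≤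
            |Real.sinc (Real.pi * (1 / P) * b)| * (Real.pi * (1 / P) * |b|) :=
              mul_le_mul_of_nonneg_left w3 (abs_nonneg _)
          _ = Real.pi * (1 / P) * |b| * |Real.sinc (Real.pi * (1 / P) * b)| := by ring
          _ ≤ 1 := w2
      have hz : 0 ≤ 1 / P * |b| := by positivity
      calc ‖(W₁ + W₂) / 2 - W₀‖ * |kap m ξ| * (1 / P * |b|) ≤
          ((‖W₁‖ + ‖W₂‖) / 2 + ‖W₀‖) * 1 * (1 / P * |b|) :=
            mul_le_mul_of_nonneg_right (mul_le_mul tri hκ1 hκ0 (by positivity)) hz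
        _ = (‖W₁‖ * (1 / P * |b|) + ‖W₂‖ * (1 / P * |b|)) / 2 + ‖W₀‖ * (1 / P * |b|) := by ring
        _ ≤ 8 := by linarith
    · push Not at hc
      calc ‖(W₁ + W₂) / 2 - W₀‖ * |kap m ξ| * (1 / P * |b|) ≤
          ‖(W₁ + W₂) / 2 - W₀‖ * |kap m ξ| * (8 * (h * ‖ξ‖)) :=
            mul_le_mul_of_nonneg_left hc.le (by positivity)
        _ = 8 * (‖(W₁ + W₂) / 2 - W₀‖ * |kap m ξ| * (‖ξ‖ * h)) := by ring
        _ ≤ 8 := by linarith

theorem hE1 (hPT : StPT) (hSINC : StSINC) (hSC : StSC) (hSUF : StSUF) (hOCT : StOCT) : StE1 := by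
  intro C₀ hC₀
  obtain ⟨C, hC, hc⟩ := hSC C₀ hC₀
  refine ⟨8 * (4 * C + 12 * Real.sqrt C) + 64, by positivity, ?_⟩
  intro u s c m R K A σ s₁ s₂ c₁ c₂ hSys hj ξ hξ
  set P : ℝ := (2 : ℝ) ^ u with hP
  have hPpos : 0 < P := by positivity
  have hP1 : 1 ≤ P := one_le_pow₀ (by norm_num)
  set e : ℕ → Pl → ℂ := fun j η => (Yh (s₁ j) (c₁ j) (m j) (1 / (2 * P)) η +
          Yh (s₂ j) (c₂ j) (m j) (1 / (2 * P)) η) / 2 -
          Yh (s j) (c j) (m j) (1 / P) η with he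
  have hm : ∀ j < 2 ^ u, ∀ η : Pl, ‖e j η‖ ≤ 2 ∧ ‖e j η‖ ≤ 8 * (‖η‖ * (2 : ℝ) ^ (-(m j : ℤ))) ∧
      ‖e j η‖ * (‖η‖ * (2 : ℝ) ^ (-(m j : ℤ))) ≤ 1 ∧
      ‖e j η‖ * (1 / P * |⟪E (s j), η⟫|) ≤ 8 := by
    intro j hju η
    obtain ⟨-, -, a1, a2, b1, b2, d1, d2⟩ := hj j hju
    exact main hPT hSINC P ((2 : ℝ) ^ (-(m j : ℤ))) (m j) hPpos rfl (s j) (s₁ j) (s₂ j)
      (c j) (c₁ j) (c₂ j) a1 a2 b1 b2 d1 d2 η
  have hsqrtP : 1 ≤ Real.sqrt P := by rw [Real.one_le_sqrt]; exact hP1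
  constructor
  · change ∑ j ∈ Finset.range (2 ^ u), ‖e j ξ‖ ≤ _
    have h1 := hSUF (2 ^ u) (fun j => ‖e j ξ‖ / 8) C 1 hC.le zero_le_one
      (by
        intro j hju
        obtain ⟨q1, -⟩ := hm j hju ξ
        constructor
        · positivity
        · change ‖e j ξ‖ / 8 ≤ 1
          linarith)
      (by
        intro y hy hy1
        have h2 := hc u s c m m R K A σ hSys ξ y (1 / P) hξ hy hy1 (by positivity)
        have h3 : (2 : ℝ) ^ u * (1 / P) * y ^ 2 = y ^ 2 := by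
          rw [← hP]; field_simp
        rw [h3] at h2
        refine le_trans ?_ h2
        have hfin : ({j : ℕ | j < 2 ^ u ∧ y ≤ ‖ξ‖ * (2 : ℝ) ^ (-(m j : ℤ)) ∧
            1 / P * |⟪E (s j), ξ⟫| ≤ 1 / y}).Finite :=
          (Set.finite_Iio (2 ^ u)).subset (fun j hj => hj.1)
        have h4 : ({j : ℕ | j < 2 ^ u ∧ y ≤ ‖e j ξ‖ / 8}).ncard ≤
            ({j : ℕ | j < 2 ^ u ∧ y ≤ ‖ξ‖ * (2 : ℝ) ^ (-(m j : ℤ)) ∧
            1 / P * |⟪E (s j), ξ⟫| ≤ 1 / y}).ncard := by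
          refine Set.ncard_le_ncard ?_ hfin
          rintro j ⟨hj1, hj2⟩
          obtain ⟨q1, q2, q3, q4⟩ := hm j hj1 ξ
          refine ⟨hj1, ?_, ?_⟩
          · linarith
          · rw [le_div_iff₀ hy]
            have hz : 0 ≤ 1 / P * |⟪E (s j), ξ⟫| := by positivity
            have := mul_le_mul_of_nonneg_right hj2 hz
            linarith
        exact_mod_cast h4)
    have h5 : ∑ j ∈ Finset.range (2 ^ u), ‖e j ξ‖ =
        8 * ∑ j ∈ Finset.range (2 ^ u), ‖e j ξ‖ / 8 := by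
      rw [Finset.mul_sum]
      refine Finset.sum_congr rfl (fun j _ => ?_)
      ring
    rw [h5]
    have h6 : Real.sqrt (C * 1 * ((2 ^ u : ℕ) : ℝ)) = Real.sqrt C * Real.sqrt P := by
      rw [mul_one, Real.sqrt_mul hC.le]
      congr 2
      rw [hP]; push_cast; rfl
    rw [h6] at h1
    have h8 : (8 * (4 * C + 12 * Real.sqrt C) + 64) * Real.sqrt P =
        32 * (C * Real.sqrt P) + 96 * (Real.sqrt C * Real.sqrt P) + 64 * Real.sqrt P := by ring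
    rw [h8]
    have h9 := mul_le_mul_of_nonneg_left hsqrtP hC.le
    linarith
  · change ∑' k : ℤ, ∑ j ∈ Finset.range (2 ^ u), ‖e j ((2 : ℝ) ^ k • ξ)‖ₑ ≤ _
    have hr : 0 < ‖ξ‖ := norm_pos_iff.mpr hξ
    have hoct : ∀ j < 2 ^ u, ∑' k : ℤ, ‖e j ((2 : ℝ) ^ k • ξ)‖ₑ ≤ ENNReal.ofReal 64 := by
      intro j hju
      have h1 := hOCT (fun k => ‖e j ((2 : ℝ) ^ k • ξ)‖ₑ) ‖ξ‖ 8 (m j : ℤ) (m j : ℤ) hr (by norm_num)
        le_rfl
        (by
          intro k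
          obtain ⟨q1, -⟩ := hm j hju ((2 : ℝ) ^ k • ξ)
          change ‖e j ((2 : ℝ) ^ k • ξ)‖ₑ ≤ _
          rw [← ofReal_norm]
          exact ENNReal.ofReal_le_ofReal (by linarith))
        (by
          intro k _
          obtain ⟨-, q2, -⟩ := hm j hju ((2 : ℝ) ^ k • ξ)
          change ‖e j ((2 : ℝ) ^ k • ξ)‖ₑ ≤ _
          rw [← ofReal_norm]
          refine ENNReal.ofReal_le_ofReal (q2.trans (le_of_eq ?_))
          rw [norm_smul, Real.norm_eq_abs, abs_of_pos (by positivity : (0 : ℝ) < 2 ^ k), zpow_neg]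
          rfl)
        (by
          intro k _
          obtain ⟨-, -, q3, -⟩ := hm j hju ((2 : ℝ) ^ k • ξ)
          change ‖e j ((2 : ℝ) ^ k • ξ)‖ₑ ≤ _
          rw [← ofReal_norm]
          refine ENNReal.ofReal_le_ofReal ?_
          rw [norm_smul, Real.norm_eq_abs, abs_of_pos (by positivity : (0 : ℝ) < 2 ^ k)] at q3
          have hk : (0 : ℝ) < 2 ^ k := by positivity
          have hmz : (0 : ℝ) < (2 : ℝ) ^ (-(m j : ℤ)) := by positivity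
          have hpos : 0 < (2 : ℝ) ^ k * ‖ξ‖ * (2 : ℝ) ^ (-(m j : ℤ)) := by positivity
          have q4 : ‖e j ((2 : ℝ) ^ k • ξ)‖ ≤ 1 / ((2 : ℝ) ^ k * ‖ξ‖ * (2 : ℝ) ^ (-(m j : ℤ))) := by
            rw [le_div_iff₀ hpos]; exact q3
          have q5 : 1 / ((2 : ℝ) ^ k * ‖ξ‖ * (2 : ℝ) ^ (-(m j : ℤ))) =
              (2 : ℝ) ^ (m j : ℤ) / ((2 : ℝ) ^ k * ‖ξ‖) := by
            rw [zpow_neg]
            have : (2 : ℝ) ^ (m j : ℤ) ≠ 0 := by positivity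
            field_simp
          rw [q5] at q4
          have q6 : 0 ≤ (2 : ℝ) ^ (m j : ℤ) / ((2 : ℝ) ^ k * ‖ξ‖) := by positivity
          linarith)
      refine h1.trans (le_of_eq ?_)
      congr 1
      ring
    rw [Summable.tsum_finsetSum (fun i _ => ENNReal.summable)]
    calc ∑ j ∈ Finset.range (2 ^ u), ∑' k : ℤ, ‖e j ((2 : ℝ) ^ k • ξ)‖ₑ
        ≤ ∑ j ∈ Finset.range (2 ^ u), ENNReal.ofReal 64 :=
          Finset.sum_le_sum (fun j hj => hoct j (Finset.mem_range.mp hj))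
      _ = ENNReal.ofReal (64 * P) := by
          rw [Finset.sum_const, Finset.card_range, nsmul_eq_mul, mul_comm,
            ENNReal.ofReal_mul (by norm_num)]
          congr 1
          rw [hP, ENNReal.ofReal_pow (by norm_num)]
          push_cast
          norm_num
      _ ≤ ENNReal.ofReal ((8 * (4 * C + 12 * Real.sqrt C) + 64) * P) := by
          apply ENNReal.ofReal_le_ofReal
          have h9 : 0 ≤ 8 * (4 * C + 12 * Real.sqrt C) := by positivity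
          exact mul_le_mul_of_nonneg_right (by linarith) hPpos.le

end Pool.Agent.Helper13.RG
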